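import Pool.Agent.W821.TB.Stm

/-!
Rotations avoiding an arc have bounded order.
-/

set_option autoImplicit false

namespace Pool.Agent.W410.TB.Arc

/-- the multiples of a small positive number come close to every nonnegative number -/
theorem near {δ η t : ℝ} (hδ : 0 < δ) (hδη : δ < η) (ht : 0 ≤ t) :
    ∃ M : ℕ, |(M : ℝ) * δ - t| < η := by
  refine ⟨⌈t / δ⌉₊, ?_⟩
  have h1 : t / δ ≤ (⌈t / δ⌉₊ : ℝ) := Nat.le_ceil _
  have h2 : (⌈t / δ⌉₊ : ℝ) < t / δ + 1 := Nat.ceil_lt_add_one (div_nonneg ht hδ.le)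
  have h3 : t ≤ (⌈t / δ⌉₊ : ℝ) * δ := by
    rwa [div_le_iff₀ hδ] at h1
  have h4 : (⌈t / δ⌉₊ : ℝ) * δ < t + δ := by
    have h5 := mul_lt_mul_of_pos_right h2 hδ
    have h6 : (t / δ + 1) * δ = t + δ := by field_simp
    linarith
  rw [abs_of_nonneg (by linarith)]
  linarith

theorem main : Pool.Agent.W821.TB.ArcStmt := by
  intro s₀ η hη
  have hpi : 0 < 2 * Real.pi := by positivity
  obtain ⟨n, hn⟩ := exists_nat_gt (2 * Real.pi / η)
  refine ⟨n + 1, by omega, fun θ h => ?_⟩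
  obtain ⟨j, k, hk0, hkn, hjk⟩ := Real.exists_int_int_abs_mul_sub_le (θ / (2 * Real.pi))
    (Nat.succ_pos n)
  obtain ⟨K, rfl⟩ : ∃ K : ℕ, k = K := ⟨k.toNat, (Int.toNat_of_nonneg hk0.le).symm⟩
  obtain ⟨δ, hδ⟩ : ∃ δ : ℝ, δ = (K : ℝ) * θ - 2 * Real.pi * j := ⟨_, rfl⟩
  have hδ2 : δ = 2 * Real.pi * (((K : ℤ) : ℝ) * (θ / (2 * Real.pi)) - j) := by
    rw [hδ]
    push_cast
    field_simp
  have hδη : |δ| < η := by
    rw [hδ2, abs_mul, abs_of_pos hpi]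
    have h1 : 2 * Real.pi * |((K : ℤ) : ℝ) * (θ / (2 * Real.pi)) - j| ≤
        2 * Real.pi * (1 / ((n.succ : ℕ) + 1)) := mul_le_mul_of_nonneg_left hjk hpi.le
    have h2 : 2 * Real.pi * (1 / (((n.succ : ℕ) : ℝ) + 1)) < η := by
      have h3 : 2 * Real.pi < η * n := by
        rw [div_lt_iff₀ hη] at hn
        linarith
      rw [mul_one_div, div_lt_iff₀ (by positivity)]
      push_cast
      nlinarith
    exact lt_of_le_of_lt h1 h2
  rcases lt_trichotomy δ 0 with hneg | hzero | hpos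
  · exfalso
    obtain ⟨J, hJ⟩ : ∃ J : ℤ, s₀ + 2 * Real.pi * J ≤ 0 := by
      refine ⟨⌊-s₀ / (2 * Real.pi)⌋, ?_⟩
      have h1 := Int.floor_le (-s₀ / (2 * Real.pi))
      rw [le_div_iff₀ hpi] at h1
      linarith
    obtain ⟨M, hM⟩ := near (δ := -δ) (t := -(s₀ + 2 * Real.pi * J)) (neg_pos.2 hneg)
      (by rwa [abs_of_neg hneg] at hδη) (by linarith)
    have h1 := h (M * K) (M * j + J)
    have h2 : ((M * K : ℕ) : ℝ) * θ - s₀ - 2 * Real.pi * ((M * j + J : ℤ) : ℝ) =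
        -((M : ℝ) * (-δ) - -(s₀ + 2 * Real.pi * J)) := by
      rw [hδ]
      push_cast
      ring
    rw [h2, abs_neg] at h1
    linarith
  · refine ⟨K, by exact_mod_cast hk0, by exact_mod_cast hkn, j, ?_⟩
    linarith
  · exfalso
    obtain ⟨J, hJ⟩ : ∃ J : ℤ, 0 ≤ s₀ + 2 * Real.pi * J := by
      refine ⟨⌈-s₀ / (2 * Real.pi)⌉, ?_⟩
      have h1 := Int.le_ceil (-s₀ / (2 * Real.pi))
      rw [div_le_iff₀ hpi] at h1
      linarith
    obtain ⟨M, hM⟩ := near (δ := δ) (t := s₀ + 2 * Real.pi * J) hpos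
      (by rwa [abs_of_pos hpos] at hδη) hJ
    have h1 := h (M * K) (M * j + J)
    have h2 : ((M * K : ℕ) : ℝ) * θ - s₀ - 2 * Real.pi * ((M * j + J : ℤ) : ℝ) =
        (M : ℝ) * δ - (s₀ + 2 * Real.pi * J) := by
      rw [hδ]
      push_cast
      ring
    rw [h2] at h1
    linarith

end Pool.Agent.W410.TB.Arc
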